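import Pool.Agent.T9h34.Q.Spec5

/-!
# Windows: the probabilistic part
-/

set_option autoImplicit false

namespace Pool.Agent.T9h77.QC

open Finset Pool.Agent.T9h34.Q
open Pool.Agent.PC34 (prob withClique)
open Pool.Agent.T9h34 (graphInput)

open Classical in
/-- indicator. -/
noncomputable def i1 (p : Prop) : ℝ := if p then 1 else 0

theorem i1_true {p : Prop} (h : p) : i1 p = 1 := by simp [i1, h]

theorem i1_false {p : Prop} (h : ¬ p) : i1 p = 0 := by simp [i1, h]

theorem i1_nonneg (p : Prop) : 0 ≤ i1 p := by unfold i1; split_ifs <;> norm_num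

theorem i1_le_one (p : Prop) : i1 p ≤ 1 := by unfold i1; split_ifs <;> norm_num

theorem prob_eq {Ω : Type} [Fintype Ω] (A : Ω → Prop) :
    prob A = (∑ x, i1 (A x)) / Fintype.card Ω := by
  classical
  unfold prob i1
  congr 1
  rw [sum_boole]

/-- the window event. -/
def Wn (θ W x : ℕ) (p : Prop) : Prop := θ + W ≤ x ∨ (θ ≤ x ∧ x < θ + W ∧ p)

theorem step {j W x x' : ℕ} {p p' : Prop} (hW : 0 < W) (hx : x ≤ x') :
    (if j = x / W then i1 p' - i1 p else 0) ≤ i1 (Wn (j * W) W x' p') - i1 (Wn (j * W) W x p) := by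
  have h1 := i1_nonneg p
  have h2 := i1_le_one p'
  have hx1 : x / W * W ≤ x := Nat.div_mul_le_self x W
  have hx2 : x < x / W * W + W := Nat.lt_div_mul_add hW
  split_ifs with h
  · subst h
    have e1 : i1 (Wn (x / W * W) W x p) = i1 p := by
      by_cases hp : p
      · rw [i1_true hp, i1_true (p := Wn (x / W * W) W x p) (Or.inr ⟨hx1, hx2, hp⟩)]
      · rw [i1_false hp, i1_false]
        rintro (h3 | h3)
        · omega
        · exact hp h3.2.2
    rw [e1]
    by_cases h3 : x / W * W + W ≤ x'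
    · rw [i1_true (p := Wn (x / W * W) W x' p') (Or.inl h3)]
      linarith
    · by_cases hp : p'
      · rw [i1_true hp, i1_true (p := Wn (x / W * W) W x' p') (Or.inr ⟨hx1.trans hx, by omega, hp⟩)]
      · rw [i1_false hp]
        have := i1_nonneg (Wn (x / W * W) W x' p')
        linarith
  · by_cases h3 : j < x / W
    · have h4 : j * W + W ≤ x := by
        have : (j + 1) * W ≤ x / W * W := Nat.mul_le_mul_right _ h3
        rw [add_mul, one_mul] at this
        omega
      rw [i1_true (p := Wn (j * W) W x' p') (Or.inl (h4.trans hx)),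
        i1_true (p := Wn (j * W) W x p) (Or.inl h4)]
      norm_num
    · have h4 : x < j * W := by
        have h5 : x / W + 1 ≤ j := by omega
        have : (x / W + 1) * W ≤ j * W := Nat.mul_le_mul_right _ h5
        rw [add_mul, one_mul] at this
        omega
      rw [i1_false (p := Wn (j * W) W x p)]
      · have := i1_nonneg (Wn (j * W) W x' p')
        linarith
      · rintro (h5 | h5) <;> omega

/-! ### The second moment -/

section mom

variable {n : ℕ}

/-- a pair is flipped. -/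
def flp (k l : Fin n) (h : k ≠ l) (G : SimpleGraph (Fin n)) : SimpleGraph (Fin n) where
  Adj a b := (s(a, b) = s(k, l) ∧ ¬ G.Adj a b) ∨ (s(a, b) ≠ s(k, l) ∧ G.Adj a b)
  symm := ⟨fun a b hab => by
    rcases hab with ⟨h1, h2⟩ | ⟨h1, h2⟩
    · exact Or.inl ⟨by rw [Sym2.eq_swap]; exact h1, fun h3 => h2 h3.symm⟩
    · exact Or.inr ⟨by rw [Sym2.eq_swap]; exact h1, h2.symm⟩⟩
  loopless := ⟨fun a ha => by
    rcases ha with ⟨h1, h2⟩ | ⟨h1, h2⟩
    · rw [Sym2.eq_iff] at h1
      rcases h1 with ⟨h3, h4⟩ | ⟨h3, h4⟩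
      · exact h (h3.symm.trans h4)
      · exact h (h4.symm.trans h3)
    · exact h2.ne rfl⟩

theorem flp_flp (k l : Fin n) (h : k ≠ l) (G : SimpleGraph (Fin n)) :
    flp k l h (flp k l h G) = G := by
  ext a b
  simp only [flp]
  by_cases h1 : s(a, b) = s(k, l)
  · simp [h1]
  · simp [h1]

open Classical in
/-- sign of a pair. -/
noncomputable def eps (G : SimpleGraph (Fin n)) (p : Fin n × Fin n) : ℝ :=
  if G.Adj p.1 p.2 then 1 else -1

theorem eps_sq (G : SimpleGraph (Fin n)) (p : Fin n × Fin n) : eps G p * eps G p = 1 := by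
  unfold eps; split_ifs <;> norm_num

theorem eps_abs (G : SimpleGraph (Fin n)) (p : Fin n × Fin n) : |eps G p| = 1 := by
  unfold eps; split_ifs <;> norm_num

theorem eps_same (k l : Fin n) (h : k ≠ l) (G : SimpleGraph (Fin n)) :
    eps (flp k l h G) (k, l) = - eps G (k, l) := by
  unfold eps
  have : (flp k l h G).Adj k l ↔ ¬ G.Adj k l := by simp [flp]
  by_cases h1 : G.Adj k l
  · rw [if_pos h1, if_neg (by rw [this]; exact not_not.2 h1)]
  · rw [if_neg h1, if_pos (this.2 h1)]
    norm_num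

theorem eps_other (k l : Fin n) (h : k ≠ l) (G : SimpleGraph (Fin n)) (p : Fin n × Fin n)
    (hp : s(p.1, p.2) ≠ s(k, l)) : eps (flp k l h G) p = eps G p := by
  unfold eps
  have : (flp k l h G).Adj p.1 p.2 ↔ G.Adj p.1 p.2 :=
    ⟨fun h1 => h1.elim (fun h2 => absurd h2.1 hp) (fun h2 => h2.2), fun h1 => Or.inr ⟨hp, h1⟩⟩
  by_cases h1 : G.Adj p.1 p.2
  · rw [if_pos h1, if_pos (this.2 h1)]
  · rw [if_neg h1, if_neg (fun h2 => h1 (this.1 h2))]

theorem sum_eps (p q : Fin n × Fin n) (hq : q.1 ≠ q.2) (h : s(p.1, p.2) ≠ s(q.1, q.2)) :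
    ∑ G : SimpleGraph (Fin n), eps G p * eps G q = 0 := by
  classical
  let e : SimpleGraph (Fin n) ≃ SimpleGraph (Fin n) :=
    ⟨flp q.1 q.2 hq, flp q.1 q.2 hq, flp_flp _ _ _, flp_flp _ _ _⟩
  have h1 := e.sum_comp (fun G => eps G p * eps G q)
  have h2 : ∀ G, eps (e G) p * eps (e G) q = -(eps G p * eps G q) := by
    intro G
    have e1 : eps (e G) p = eps G p := eps_other _ _ hq _ _ h
    have e2 : eps (e G) q = - eps G q := eps_same _ _ hq G
    rw [e1, e2]
    ring
  simp only [h2, sum_neg_distrib] at h1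
  linarith

/-- the number of ordered adjacent pairs. -/
theorem ones_eq (G : SimpleGraph (Fin n)) :
    (ones (graphInput G) : ℝ) = (n : ℝ) * ((n : ℝ) - 1) / 2 +
      (∑ p ∈ (univ : Finset (Fin n)).offDiag, eps G p) / 2 := by
  classical
  have h1 : (univ : Finset (Fin n × Fin n)).filter (fun p => graphInput G p = true) =
      ((univ : Finset (Fin n)).offDiag).filter (fun p => G.Adj p.1 p.2) := by
    ext p
    simp only [mem_filter, mem_univ, true_and, mem_offDiag, graphInput, decide_eq_true_eq]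
    exact ⟨fun h => ⟨h.ne, h⟩, fun h => h.2⟩
  unfold ones
  rw [h1, ← sum_boole]
  have h2 : ∀ p : Fin n × Fin n, (if G.Adj p.1 p.2 then (1 : ℝ) else 0) = 1 / 2 + eps G p / 2 := by
    intro p
    unfold eps
    split_ifs <;> norm_num
  simp only [h2]
  rw [sum_add_distrib, sum_const, offDiag_card, card_univ, Fintype.card_fin, ← sum_div,
    nsmul_eq_mul, Nat.cast_sub (Nat.le_mul_self n)]
  push_cast
  ring

theorem second (n : ℕ) : ∑ G : SimpleGraph (Fin n),
    ((ones (graphInput G) : ℝ) - (n : ℝ) * ((n : ℝ) - 1) / 2) ^ 2 ≤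
      (Fintype.card (SimpleGraph (Fin n)) : ℝ) * ((n : ℝ) ^ 2 / 2) := by
  classical
  have h1 : ∀ G : SimpleGraph (Fin n),
      ((ones (graphInput G) : ℝ) - (n : ℝ) * ((n : ℝ) - 1) / 2) ^ 2 =
      (∑ p ∈ (univ : Finset (Fin n)).offDiag, ∑ q ∈ (univ : Finset (Fin n)).offDiag,
        eps G p * eps G q) / 4 := by
    intro G
    rw [ones_eq, ← sum_mul_sum]
    ring
  simp only [h1]
  rw [← sum_div, sum_comm]
  have h2 : ∀ p ∈ (univ : Finset (Fin n)).offDiag,
      ∑ G : SimpleGraph (Fin n), ∑ q ∈ (univ : Finset (Fin n)).offDiag, eps G p * eps G q ≤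
        2 * (Fintype.card (SimpleGraph (Fin n)) : ℝ) := by
    intro p _
    rw [sum_comm]
    have h3 : ∀ q ∈ (univ : Finset (Fin n)).offDiag, ∑ G : SimpleGraph (Fin n), eps G p * eps G q ≤
        if q ∈ ({p, p.swap} : Finset (Fin n × Fin n)) then
          (Fintype.card (SimpleGraph (Fin n)) : ℝ) else 0 := by
      intro q hq
      rw [mem_offDiag] at hq
      split_ifs with h4
      · have h5 : ∀ G ∈ (univ : Finset (SimpleGraph (Fin n))), eps G p * eps G q ≤ 1 := by
          intro G _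
          refine (le_abs_self _).trans ?_
          rw [abs_mul, eps_abs, eps_abs, mul_one]
        refine (sum_le_sum h5).trans ?_
        rw [sum_const, card_univ, nsmul_eq_mul, mul_one]
      · rw [sum_eps p q hq.2.2]
        intro h5
        apply h4
        rw [mem_insert, mem_singleton]
        rw [Sym2.eq_iff] at h5
        rcases h5 with ⟨h6, h7⟩ | ⟨h6, h7⟩
        · exact Or.inl (Prod.ext h6.symm h7.symm)
        · exact Or.inr (Prod.ext h7.symm h6.symm)
    refine (sum_le_sum h3).trans ?_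
    rw [← sum_filter, sum_const, nsmul_eq_mul]
    refine mul_le_mul_of_nonneg_right ?_ (Nat.cast_nonneg _)
    have h4 : ((univ : Finset (Fin n)).offDiag.filter
        (fun q => q ∈ ({p, p.swap} : Finset (Fin n × Fin n)))).card ≤ 2 := by
      refine (card_le_card (t := ({p, p.swap} : Finset (Fin n × Fin n))) ?_).trans card_le_two
      intro q hq
      exact (mem_filter.1 hq).2
    exact_mod_cast h4
  have h3 := sum_le_sum h2
  rw [sum_const, offDiag_card, card_univ, Fintype.card_fin, nsmul_eq_mul] at h3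
  have h4 : ((n * n - n : ℕ) : ℝ) ≤ (n : ℝ) ^ 2 := by
    rw [Nat.cast_sub (Nat.le_mul_self n)]
    push_cast
    have : (0 : ℝ) ≤ n := Nat.cast_nonneg _
    nlinarith
  have h5 : (0 : ℝ) ≤ 2 * (Fintype.card (SimpleGraph (Fin n)) : ℝ) := by positivity
  have h6 := mul_le_mul_of_nonneg_right h4 h5
  linarith

end mom

theorem ones_mono {n : ℕ} (G : SimpleGraph (Fin n)) (S : Finset (Fin n)) :
    ones (graphInput G) ≤ ones (graphInput (withClique G S)) := by
  classical
  unfold ones
  refine card_le_card ?_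
  intro p hp
  rw [mem_filter] at hp ⊢
  have h1 : G.Adj p.1 p.2 := by
    have := hp.2
    simpa [graphInput] using this
  refine ⟨mem_univ _, ?_⟩
  have h2 : (withClique G S).Adj p.1 p.2 := Or.inl h1
  simpa [graphInput] using h2

/-- Chebyshev. -/
theorem cheb (n : ℕ) (hn : 0 < n) (α : ℝ) (hα : 0 < α) (hα1 : α ≤ 1) :
    ∑ G : SimpleGraph (Fin n),
      i1 ((n : ℝ) / α < |(ones (graphInput G) : ℝ) - (n : ℝ) * ((n : ℝ) - 1) / 2|) ≤
    (Fintype.card (SimpleGraph (Fin n)) : ℝ) * (α / 2) := by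
  have hn' : (0 : ℝ) < n := by exact_mod_cast hn
  have h1 : ∀ G ∈ (univ : Finset (SimpleGraph (Fin n))),
      i1 ((n : ℝ) / α < |(ones (graphInput G) : ℝ) - (n : ℝ) * ((n : ℝ) - 1) / 2|) ≤
      (α / n) ^ 2 * ((ones (graphInput G) : ℝ) - (n : ℝ) * ((n : ℝ) - 1) / 2) ^ 2 := by
    intro G _
    set y := (ones (graphInput G) : ℝ) - (n : ℝ) * ((n : ℝ) - 1) / 2
    by_cases h : (n : ℝ) / α < |y|
    · rw [i1_true h, ← mul_pow]
      have h2 : 1 ≤ α / n * |y| := by
        rw [div_lt_iff₀ hα] at h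
        rw [div_mul_eq_mul_div, le_div_iff₀ hn']
        nlinarith
      rw [← sq_abs, abs_mul, abs_of_pos (div_pos hα hn')]
      nlinarith
    · rw [i1_false h]
      positivity
  refine (sum_le_sum h1).trans ?_
  rw [← mul_sum]
  have h2 := mul_le_mul_of_nonneg_left (second n) (sq_nonneg (α / n))
  refine h2.trans ?_
  have h3 : (α / n) ^ 2 * ((Fintype.card (SimpleGraph (Fin n)) : ℝ) * ((n : ℝ) ^ 2 / 2)) =
      (Fintype.card (SimpleGraph (Fin n)) : ℝ) * (α ^ 2 / 2) := by
    field_simp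
  rw [h3]
  refine mul_le_mul_of_nonneg_left ?_ (Nat.cast_nonneg _)
  nlinarith

/-- (X6) -/
theorem stP6 : StP6 := by
  classical
  refine ⟨1 / 8, by norm_num, fun n k W hn hk hW1 hWn P α hα hα1 hadv => ?_⟩
  have hn0 : 0 < n := by omega
  have hn' : (0 : ℝ) < n := by exact_mod_cast hn0
  have hW' : (1 : ℝ) ≤ W := by exact_mod_cast hW1
  have hWn' : (W : ℝ) ≤ n := by exact_mod_cast hWn
  set Sk : Type := {S : Finset (Fin n) // S.card = k} with hSk
  have hSne : Nonempty Sk := by
    obtain ⟨S, _, hS⟩ := exists_subset_card_eq (s := (univ : Finset (Fin n))) (n := k) (by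
      rw [card_univ, Fintype.card_fin]; exact hk)
    exact ⟨⟨S, hS⟩⟩
  set Ω : Type := SimpleGraph (Fin n) × Sk with hΩ
  have hfst : ∀ A : SimpleGraph (Fin n) → Prop, prob A = prob (fun x : Ω => A x.1) := by
    intro A
    rw [prob_eq, prob_eq, Fintype.sum_prod_type, Fintype.card_prod]
    simp only [sum_const, card_univ, nsmul_eq_mul]
    rw [← mul_sum]
    have h1 : (Fintype.card Sk : ℝ) ≠ 0 := by exact_mod_cast Fintype.card_ne_zero
    have h2 : (Fintype.card (SimpleGraph (Fin n)) : ℝ) ≠ 0 := by exact_mod_cast Fintype.card_ne_zero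
    push_cast
    field_simp
  set μ : ℝ := (n : ℝ) * ((n : ℝ) - 1) / 2 with hμ
  set lo : ℝ := μ - n / α with hlo
  set hi : ℝ := μ + n / α with hhi
  set j₀ : ℕ := ⌊lo / W⌋₊ with hj₀
  set j₁ : ℕ := ⌊hi / W⌋₊ with hj₁
  set J : Finset ℕ := Icc j₀ j₁ with hJ
  have hμ0 : 0 ≤ μ := by
    have : (1 : ℝ) ≤ n := by exact_mod_cast hn0
    rw [hμ]
    have h2 : 0 ≤ (n : ℝ) - 1 := by linarith
    positivity
  have hnα : 0 < (n : ℝ) / α := div_pos hn' hα
  have hhi0 : 0 ≤ hi := by rw [hhi]; linarith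
  have hW0 : (0 : ℝ) < W := by linarith
  -- outside of the windows
  have hout : ∀ G : SimpleGraph (Fin n), ones (graphInput G) / W ∉ J →
      (n : ℝ) / α < |(ones (graphInput G) : ℝ) - μ| := by
    intro G hG
    by_contra hcon
    push Not at hcon
    rw [abs_le] at hcon
    apply hG
    rw [hJ, mem_Icc]
    constructor
    · rw [hj₀, ← Nat.floor_div_eq_div (K := ℝ)]
      refine Nat.floor_le_floor ?_
      refine div_le_div_of_nonneg_right ?_ hW0.le
      rw [hlo]
      linarith
    · rw [hj₁, ← Nat.floor_div_eq_div (K := ℝ)]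
      refine Nat.floor_le_floor ?_
      refine div_le_div_of_nonneg_right ?_ hW0.le
      rw [hhi]
      linarith
  have hcardJ : (J.card : ℝ) ≤ 4 * n / (W * α) := by
    have h1 : (J.card : ℝ) ≤ 2 * ((n : ℝ) / α) / W + 2 := by
      rw [hJ, Nat.card_Icc]
      have h2 : (j₁ : ℝ) ≤ hi / W := Nat.floor_le (div_nonneg hhi0 hW0.le)
      have h3 : lo / W < j₀ + 1 := Nat.lt_floor_add_one _
      have h4 : ((j₁ + 1 - j₀ : ℕ) : ℝ) ≤ max 0 ((j₁ : ℝ) + 1 - j₀) := by
        rcases le_total j₀ (j₁ + 1) with h5 | h5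
        · rw [Nat.cast_sub h5]
          push_cast
          exact le_max_right _ _
        · rw [Nat.sub_eq_zero_of_le h5]
          simp
      refine h4.trans (max_le (by positivity) ?_)
      have h5 : hi / W - lo / W = 2 * ((n : ℝ) / α) / W := by
        rw [hhi, hlo]; ring
      linarith
    refine h1.trans ?_
    have h2 : (2 : ℝ) ≤ 2 * n / (W * α) := by
      rw [le_div_iff₀ (by positivity)]
      nlinarith
    have h3 : 2 * ((n : ℝ) / α) / W = 2 * n / (W * α) := by
      field_simp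
    rw [h3]
    have h4 : 4 * (n : ℝ) / (W * α) = 2 * n / (W * α) + 2 * n / (W * α) := by ring
    rw [h4]
    linarith
  -- the sum over the windows
  have hsum : α / 2 ≤ ∑ j ∈ J, (prob (fun x : Ω =>
      Wn (j * W) W (ones (graphInput (withClique x.1 x.2.1))) (P (withClique x.1 x.2.1))) -
      prob (fun x : Ω => Wn (j * W) W (ones (graphInput x.1)) (P x.1))) := by
    have hc : (0 : ℝ) < Fintype.card Ω := by
      have : Nonempty Ω := ⟨(⊥, hSne.some)⟩
      exact_mod_cast Fintype.card_pos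
    have h1 : ∀ x : Ω, i1 (P (withClique x.1 x.2.1)) - i1 (P x.1) -
        i1 ((n : ℝ) / α < |(ones (graphInput x.1) : ℝ) - μ|) ≤
        ∑ j ∈ J, (i1 (Wn (j * W) W (ones (graphInput (withClique x.1 x.2.1)))
          (P (withClique x.1 x.2.1))) - i1 (Wn (j * W) W (ones (graphInput x.1)) (P x.1))) := by
      intro x
      refine le_trans ?_ (sum_le_sum fun j _ => step (j := j) (by omega) (ones_mono x.1 x.2.1))
      rw [sum_ite_eq' J (ones (graphInput x.1) / W)]
      split_ifs with h2
      · have := i1_nonneg ((n : ℝ) / α < |(ones (graphInput x.1) : ℝ) - μ|)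
        linarith
      · rw [i1_true (hout _ h2)]
        have h3 := i1_le_one (P (withClique x.1 x.2.1))
        have h4 := i1_nonneg (P x.1)
        linarith
    have h2 := sum_le_sum (s := (univ : Finset Ω)) (fun x _ => h1 x)
    rw [sum_comm, sum_sub_distrib, sum_sub_distrib] at h2
    have h3 : ∑ x : Ω, i1 ((n : ℝ) / α < |(ones (graphInput x.1) : ℝ) - μ|) ≤
        (Fintype.card Ω : ℝ) * (α / 2) := by
      have h4 := cheb n hn0 α hα hα1
      rw [Fintype.sum_prod_type, Fintype.card_prod]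
      simp only [sum_const, card_univ, nsmul_eq_mul]
      rw [← mul_sum]
      have h5 := mul_le_mul_of_nonneg_left h4 (Nat.cast_nonneg (α := ℝ) (Fintype.card Sk))
      refine h5.trans (le_of_eq ?_)
      push_cast
      ring
    have h4 : ∀ A : Ω → Prop, ∑ x, i1 (A x) = Fintype.card Ω * prob A := by
      intro A
      rw [prob_eq]
      field_simp
    rw [hfst] at hadv
    simp only [sum_sub_distrib] at h2 ⊢
    simp only [h4] at h2
    rw [← mul_sum, ← mul_sum] at h2
    have h5 : (Fintype.card Ω : ℝ) * (α / 2) ≤ (Fintype.card Ω : ℝ) *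
        (∑ j ∈ J, prob (fun x : Ω =>
          Wn (j * W) W (ones (graphInput (withClique x.1 x.2.1))) (P (withClique x.1 x.2.1))) -
        ∑ j ∈ J, prob (fun x : Ω => Wn (j * W) W (ones (graphInput x.1)) (P x.1))) := by
      have h6 := mul_le_mul_of_nonneg_left hadv hc.le
      rw [h4] at h3
      linarith
    exact le_of_mul_le_mul_left h5 hc
  -- one window
  obtain ⟨j, hj, hj2⟩ : ∃ j ∈ J, 1 / 8 * α ^ 2 * (W / n) ≤ prob (fun x : Ω =>
      Wn (j * W) W (ones (graphInput (withClique x.1 x.2.1))) (P (withClique x.1 x.2.1))) -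
      prob (fun x : Ω => Wn (j * W) W (ones (graphInput x.1)) (P x.1)) := by
    by_contra hcon
    push Not at hcon
    have hJne : J.Nonempty := by
      rw [nonempty_iff_ne_empty]
      intro h0
      rw [h0, sum_empty] at hsum
      linarith
    have h1 := sum_lt_sum_of_nonempty hJne hcon
    rw [sum_const, nsmul_eq_mul] at h1
    have h2 : (J.card : ℝ) * (1 / 8 * α ^ 2 * (W / n)) ≤ α / 2 := by
      have h3 := mul_le_mul_of_nonneg_right hcardJ (show 0 ≤ 1 / 8 * α ^ 2 * ((W : ℝ) / n) by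
        positivity)
      refine h3.trans (le_of_eq ?_)
      field_simp
      norm_num
    linarith
  refine ⟨j * W, ?_⟩
  rw [hfst]
  have h1 : prob (fun x : Ω => Wn (j * W) W (ones (graphInput x.1)) (P x.1)) +
      1 / 8 * α ^ 2 * (W / n) ≤ prob (fun x : Ω =>
      Wn (j * W) W (ones (graphInput (withClique x.1 x.2.1))) (P (withClique x.1 x.2.1))) := by
    linarith
  exact h1

end Pool.Agent.T9h77.QC
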